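import Pool.Agent.H32.KroneckerPrimes

/-!
# Haight's question on integer multiples in unions of integer dilates: a counterexample

For a set `E` of positive reals write `F(E) = ⋃_{r ≥ 1} r E`.  We construct a Borel set
`E ⊆ [8, 9]` of positive measure such that for every `x ∈ (0, 2]` there are infinitely many
positive integers `n` with `n x ∉ F(E)`.

The construction: by Kronecker's theorem for the (rationally independent) numbers `log p` there
are `t_j` such that the character `χ_j(x) = x ^ (i t_j)` is extremely close to `1` at all integers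
`k ≤ N_j`, while the values of `χ_j` at the primes in `(N_j, 4 N_j]` are `η_j`-dense on the circle.
Remove from `[8, 9]` all `y` with `χ_j(y)` within `3 η_j` of `1`.
-/

namespace Pool.Agent.H32.HaightDisproof

open Complex MeasureTheory Finset Filter Topology
open Pool.Agent.H32

/-- `F(E) = ⋃_{r ≥ 1} r E`, the union of the positive integer dilates of `E`. -/
def dilateUnion (E : Set ℝ) : Set ℝ := ⋃ r : ℕ, ⋃ _ : 1 ≤ r, (fun x : ℝ => (r : ℝ) * x) '' E

lemma mem_dilateUnion {E : Set ℝ} {y : ℝ} :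
    y ∈ dilateUnion E ↔ ∃ r : ℕ, 1 ≤ r ∧ ∃ x ∈ E, (r : ℝ) * x = y := by
  simp [dilateUnion]

/-- Sanity check: `y ∈ F(E)` exactly when `y / r ∈ E` for some positive integer `r`. -/
lemma mem_dilateUnion_iff_div {E : Set ℝ} {y : ℝ} :
    y ∈ dilateUnion E ↔ ∃ r : ℕ, 1 ≤ r ∧ y / r ∈ E := by
  rw [mem_dilateUnion]
  constructor
  · rintro ⟨r, hr, x, hx, rfl⟩
    refine ⟨r, hr, ?_⟩
    have : (r : ℝ) ≠ 0 := by positivity
    rwa [mul_div_cancel_left₀ _ this]
  · rintro ⟨r, hr, hx⟩
    refine ⟨r, hr, _, hx, ?_⟩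
    have : (r : ℝ) ≠ 0 := by positivity
    field_simp

/-- The exceptional set `{y ∈ [8, 9] : |y^{it} - 1| ≤ δ}`. -/
def badSet (t δ : ℝ) : Set ℝ := {y : ℝ | y ∈ Set.Icc (8 : ℝ) 9 ∧ ‖chi t y - 1‖ ≤ δ}

lemma measurable_chi (t : ℝ) : Measurable (chi t) := by
  unfold chi
  fun_prop

lemma measurableSet_badSet (t δ : ℝ) : MeasurableSet (badSet t δ) := by
  have h1 : MeasurableSet {y : ℝ | ‖chi t y - 1‖ ≤ δ} :=
    measurableSet_le ((measurable_chi t).sub measurable_const).norm measurable_const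
  exact measurableSet_Icc.inter h1

/-- If `|e^{iφ} - 1| ≤ δ` then `φ` is within `2 δ` of an integer multiple of `2 π`. -/
lemma close_to_int_mul (φ δ : ℝ) (h : ‖exp ((φ : ℂ) * I) - 1‖ ≤ δ) :
    ∃ m : ℤ, |φ - 2 * Real.pi * m| ≤ 2 * δ := by
  have hpi := Real.pi_pos
  refine ⟨round (φ / (2 * Real.pi)), ?_⟩
  set m : ℤ := round (φ / (2 * Real.pi)) with hm
  have h1 : |φ / (2 * Real.pi) - m| ≤ 1 / 2 := abs_sub_round _
  set ψ : ℝ := φ - 2 * Real.pi * m with hψ
  have h2 : |ψ| ≤ Real.pi := by
    have : ψ = (2 * Real.pi) * (φ / (2 * Real.pi) - m) := by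
      rw [hψ]; field_simp
    rw [this, abs_mul, abs_of_pos (by positivity)]
    nlinarith
  have h3 : exp ((φ : ℂ) * I) = exp ((ψ : ℂ) * I) := by
    rw [hψ]
    push_cast
    rw [sub_mul, Complex.exp_sub]
    have : exp (2 * (Real.pi : ℂ) * (m : ℂ) * I) = 1 := by
      rw [show 2 * (Real.pi : ℂ) * (m : ℂ) * I = m * (2 * Real.pi * I) by ring]
      exact Complex.exp_int_mul_two_pi_mul_I m
    rw [this, div_one]
  rw [h3] at h
  -- |e^{iψ} - 1| = 2 |sin (ψ / 2)| ≥ (2 / π) |ψ|
  have h4 : ‖exp ((ψ : ℂ) * I) - 1‖ = 2 * |Real.sin (ψ / 2)| := by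
    rw [mul_comm, Complex.norm_exp_I_mul_ofReal_sub_one]
    rw [norm_mul]
    simp [Real.norm_eq_abs]
  rw [h4] at h
  have h5 : 2 / Real.pi * |ψ / 2| ≤ |Real.sin (ψ / 2)| := by
    apply Real.mul_abs_le_abs_sin
    rw [abs_div, abs_of_pos (by norm_num : (0 : ℝ) < 2)]
    linarith
  rw [abs_div, abs_of_pos (by norm_num : (0 : ℝ) < 2)] at h5
  have h6 : |ψ| / Real.pi ≤ |Real.sin (ψ / 2)| := by
    calc |ψ| / Real.pi = 2 / Real.pi * (|ψ| / 2) := by ring
      _ ≤ _ := h5
  have h7 : |ψ| / Real.pi * 2 ≤ δ := by linarith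
  have h8 : |ψ| * 2 ≤ δ * Real.pi := by
    have : |ψ| / Real.pi * 2 * Real.pi ≤ δ * Real.pi :=
      mul_le_mul_of_nonneg_right h7 hpi.le
    calc |ψ| * 2 = |ψ| / Real.pi * 2 * Real.pi := by field_simp
      _ ≤ _ := this
  have hδ : 0 ≤ δ := by
    have := abs_nonneg (Real.sin (ψ / 2)); linarith
  have hpi4 := Real.pi_le_four
  nlinarith

/-- The exceptional set has measure at most `216 δ` when `t ≥ 1` and `δ ≤ 1/4`. -/
lemma volume_badSet_le (t δ : ℝ) (ht : 1 ≤ t) (hδ0 : 0 ≤ δ) (hδ : δ ≤ 1 / 4) :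
    volume (badSet t δ) ≤ ENNReal.ofReal (216 * δ) := by
  have hpi := Real.pi_pos
  have hpi3 := Real.pi_gt_three
  have ht0 : 0 < t := by linarith
  set s : ℝ := 2 * δ with hs
  set a : ℤ := ⌈(t * Real.log 8 - s) / (2 * Real.pi)⌉ with ha
  set b : ℤ := ⌊(t * Real.log 9 + s) / (2 * Real.pi)⌋ with hb
  have hsub : badSet t δ ⊆ ⋃ m ∈ Finset.Icc a b,
      Set.Icc (Real.exp ((2 * Real.pi * m - s) / t)) (Real.exp ((2 * Real.pi * m + s) / t)) := by
    intro y hy
    obtain ⟨⟨hy8, hy9⟩, hy⟩ := hy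
    have hy0 : 0 < y := by linarith
    rw [chi_eq] at hy
    obtain ⟨m, hm⟩ := close_to_int_mul _ _ hy
    rw [abs_le] at hm
    have hl8 : Real.log 8 ≤ Real.log y := Real.log_le_log (by norm_num) hy8
    have hl9 : Real.log y ≤ Real.log 9 := Real.log_le_log hy0 hy9
    have hm1 : t * Real.log 8 - s ≤ 2 * Real.pi * m := by
      have : t * Real.log 8 ≤ t * Real.log y := mul_le_mul_of_nonneg_left hl8 ht0.le
      linarith [hm.2]
    have hm2 : 2 * Real.pi * m ≤ t * Real.log 9 + s := by
      have : t * Real.log y ≤ t * Real.log 9 := mul_le_mul_of_nonneg_left hl9 ht0.le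
      linarith [hm.1]
    simp only [Set.mem_iUnion]
    refine ⟨m, ?_, ?_, ?_⟩
    · rw [Finset.mem_Icc]
      constructor
      · rw [ha, Int.ceil_le, div_le_iff₀ (by positivity)]
        linarith
      · rw [hb, Int.le_floor, le_div_iff₀ (by positivity)]
        linarith
    · rw [← Real.le_log_iff_exp_le hy0, div_le_iff₀ ht0]
      linarith [hm.1]
    · rw [← Real.log_le_iff_le_exp hy0, le_div_iff₀ ht0]
      linarith [hm.2]
  have hlen : ∀ m ∈ Finset.Icc a b,
      volume (Set.Icc (Real.exp ((2 * Real.pi * m - s) / t)) (Real.exp ((2 * Real.pi * m + s) / t)))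
        ≤ ENNReal.ofReal (36 * s / t) := by
    intro m hm
    rw [Real.volume_Icc]
    apply ENNReal.ofReal_le_ofReal
    rw [Finset.mem_Icc] at hm
    have hm2 : 2 * Real.pi * m ≤ t * Real.log 9 + s := by
      have := hm.2
      rw [hb, Int.le_floor, le_div_iff₀ (by positivity)] at this
      linarith
    have e1 : Real.exp ((2 * Real.pi * m + s) / t) =
        Real.exp ((2 * Real.pi * m - s) / t) * Real.exp (2 * s / t) := by
      rw [← Real.exp_add]; congr 1; ring
    have e2 : Real.exp ((2 * Real.pi * m - s) / t) ≤ 9 := by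
      calc Real.exp ((2 * Real.pi * m - s) / t) ≤ Real.exp (Real.log 9) := by
            rw [Real.exp_le_exp, div_le_iff₀ ht0]; linarith
        _ = 9 := Real.exp_log (by norm_num)
    have hu0 : 0 ≤ 2 * s / t := by positivity
    have hu1 : 2 * s / t ≤ 1 := by
      rw [div_le_one ht0]; linarith
    have e3 : Real.exp (2 * s / t) - 1 ≤ 2 * (2 * s / t) := by
      have h1 := Real.abs_exp_sub_one_le (x := 2 * s / t) (by rw [abs_of_nonneg hu0]; exact hu1)
      rw [abs_of_nonneg hu0] at h1
      exact (le_abs_self _).trans h1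
    have e4 : 0 ≤ Real.exp (2 * s / t) - 1 := by
      have := Real.add_one_le_exp (2 * s / t); linarith
    rw [e1]
    have e5 : Real.exp ((2 * Real.pi * m - s) / t) * Real.exp (2 * s / t) -
        Real.exp ((2 * Real.pi * m - s) / t) =
        Real.exp ((2 * Real.pi * m - s) / t) * (Real.exp (2 * s / t) - 1) := by ring
    rw [e5]
    calc Real.exp ((2 * Real.pi * m - s) / t) * (Real.exp (2 * s / t) - 1)
        ≤ 9 * (2 * (2 * s / t)) := by
          apply mul_le_mul e2 e3 e4 (by norm_num)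
      _ = 36 * s / t := by ring
  have hcard : ((Finset.Icc a b).card : ℝ) ≤ t + 2 := by
    rw [Int.card_Icc]
    have h0 : (((b + 1 - a).toNat : ℕ) : ℝ) = max ((b + 1 - a : ℤ) : ℝ) 0 := by
      have : (((b + 1 - a).toNat : ℕ) : ℝ) = (((b + 1 - a).toNat : ℤ) : ℝ) := by push_cast; rfl
      rw [this, Int.toNat_eq_max]
      push_cast
      rfl
    rw [h0]
    apply max_le _ (by linarith)
    have h1 : (b : ℝ) ≤ (t * Real.log 9 + s) / (2 * Real.pi) := Int.floor_le _
    have h2 : (t * Real.log 8 - s) / (2 * Real.pi) ≤ a := Int.le_ceil _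
    push_cast
    have h3 : Real.log 9 - Real.log 8 ≤ 1 := by
      rw [← Real.log_div (by norm_num) (by norm_num)]
      have := Real.log_le_sub_one_of_pos (x := 9 / 8) (by norm_num)
      linarith
    have h4 : (t * Real.log 9 + s) / (2 * Real.pi) - (t * Real.log 8 - s) / (2 * Real.pi) ≤
        t + 1 := by
      rw [← sub_div, div_le_iff₀ (by positivity)]
      have h5 : t * Real.log 9 + s - (t * Real.log 8 - s) = t * (Real.log 9 - Real.log 8) + 2 * s := by
        ring
      rw [h5]
      have h6 : t * (Real.log 9 - Real.log 8) ≤ t * 1 := mul_le_mul_of_nonneg_left h3 ht0.le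
      nlinarith
    linarith
  calc volume (badSet t δ)
      ≤ volume (⋃ m ∈ Finset.Icc a b,
      Set.Icc (Real.exp ((2 * Real.pi * m - s) / t)) (Real.exp ((2 * Real.pi * m + s) / t))) :=
        measure_mono hsub
    _ ≤ ∑ m ∈ Finset.Icc a b, volume (Set.Icc (Real.exp ((2 * Real.pi * m - s) / t))
        (Real.exp ((2 * Real.pi * m + s) / t))) := measure_biUnion_finset_le _ _
    _ ≤ ∑ m ∈ Finset.Icc a b, ENNReal.ofReal (36 * s / t) := Finset.sum_le_sum hlen
    _ = ENNReal.ofReal (((Finset.Icc a b).card : ℝ) * (36 * s / t)) := by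
        rw [Finset.sum_const, nsmul_eq_mul, ENNReal.ofReal_mul (by positivity),
          ENNReal.ofReal_natCast]
    _ ≤ ENNReal.ofReal (216 * δ) := by
        apply ENNReal.ofReal_le_ofReal
        calc ((Finset.Icc a b).card : ℝ) * (36 * s / t) ≤ (t + 2) * (36 * s / t) :=
              mul_le_mul_of_nonneg_right hcard (by positivity)
          _ ≤ (3 * t) * (36 * s / t) :=
              mul_le_mul_of_nonneg_right (by linarith) (by positivity)
          _ = 216 * δ := by rw [hs]; field_simp; ring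

/-- One stage of the construction. -/
lemma stage (η : ℝ) (hη : 0 < η) (N0 : ℕ) : ∃ (N : ℕ) (t : ℝ), N0 ≤ N ∧ 1 ≤ N ∧ 1 ≤ t ∧
    (∀ k : ℕ, 1 ≤ k → k ≤ N → ‖chi t k - 1‖ ≤ η) ∧
    (∀ x : ℝ, 0 < x → ∃ p : ℕ, N < p ∧ p ≤ 4 * N ∧ ‖chi t (p * x) - 1‖ ≤ 2 * η) := by
  have hpi := Real.pi_pos
  obtain ⟨m, hm⟩ := exists_nat_ge (2 * Real.pi / η + 1)
  have hm1 : (1 : ℝ) ≤ m := by
    have : 0 ≤ 2 * Real.pi / η := by positivity
    linarith
  have hm0 : 0 < m := by exact_mod_cast (by linarith : (0 : ℝ) < m)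
  obtain ⟨N, hN0, hN1, hcard⟩ := exists_many_primes m N0
  set P : Finset ℕ := (Finset.Ioc N (4 * N)).filter Nat.Prime with hP
  obtain ⟨Q, hQP, hQcard⟩ := Finset.exists_subset_card_eq hcard
  -- enumerate Q by Fin m
  have hequiv := Q.equivFinOfCardEq hQcard
  classical
  set α : ℕ → ℝ := fun p => if hp : p ∈ Q then 2 * Real.pi * ((hequiv ⟨p, hp⟩ : Fin m) : ℕ) / m
    else 0 with hα
  have hNr : (0 : ℝ) < N := by exact_mod_cast hN1
  set S : Finset ℕ := (Finset.Icc 1 N).filter Nat.Prime ∪ Q with hS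
  have hSprime : ∀ p ∈ S, p.Prime := by
    intro p hp
    rw [hS, Finset.mem_union] at hp
    rcases hp with hp | hp
    · exact (Finset.mem_filter.mp hp).2
    · exact (Finset.mem_filter.mp (hQP hp)).2
  obtain ⟨t, ht, hclose⟩ := kronecker_primes S hSprime α (η / N) (by positivity) 1
  have hηN : η / N ≤ η := by
    apply div_le_self hη.le
    exact_mod_cast hN1
  refine ⟨N, t, hN0, hN1, ht, ?_, ?_⟩
  · intro k hk1 hkN
    have h1 := chi_nat_close t (η / N) (by positivity) N ?_ k hk1 hkN
    · refine h1.trans ?_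
      have hkr : (k : ℝ) ≤ N := by exact_mod_cast hkN
      calc (k : ℝ) * (η / N) ≤ N * (η / N) := mul_le_mul_of_nonneg_right hkr (by positivity)
        _ = η := by field_simp
    · intro p hp hpN
      have hpS : p ∈ S := by
        rw [hS, Finset.mem_union]
        left
        rw [Finset.mem_filter, Finset.mem_Icc]
        exact ⟨⟨hp.one_le, hpN⟩, hp⟩
      have hpQ : p ∉ Q := by
        intro h
        have := (Finset.mem_filter.mp (hQP h)).1
        rw [Finset.mem_Ioc] at this
        omega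
      have h2 := hclose p hpS
      have h3 : α p = 0 := by
        simp only [hα]
        rw [dif_neg hpQ]
      rw [h3] at h2
      simpa [chi] using h2
  · intro x hx
    -- choose the residue
    set θ : ℝ := t * Real.log x with hθ
    set u : ℝ := -(θ * m / (2 * Real.pi)) with hu
    set q : ℤ := ⌊u⌋ with hq
    have hmz : (0 : ℤ) < m := by exact_mod_cast hm0
    have hi0 : 0 ≤ q % m := Int.emod_nonneg _ hmz.ne'
    have hi1 : q % m < m := Int.emod_lt_of_pos _ hmz
    set i : ℕ := (q % m).toNat with hi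
    have hicast : (i : ℤ) = q % m := Int.toNat_of_nonneg hi0
    have him : i < m := by
      have : (i : ℤ) < m := by rw [hicast]; exact hi1
      exact_mod_cast this
    set p : Q := hequiv.symm ⟨i, him⟩ with hp
    have hpQ : (p : ℕ) ∈ Q := p.2
    have hpP := hQP hpQ
    rw [hP, Finset.mem_filter, Finset.mem_Ioc] at hpP
    have hαp : α p = 2 * Real.pi * i / m := by
      simp only [hα]
      rw [dif_pos hpQ]
      have : hequiv ⟨(p : ℕ), hpQ⟩ = ⟨i, him⟩ := by
        rw [Subtype.coe_eta, hp, Equiv.apply_symm_apply]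
      rw [this]
    refine ⟨p, hpP.1.1, hpP.1.2, ?_⟩
    have hpS : (p : ℕ) ∈ S := by
      rw [hS, Finset.mem_union]; right; exact hpQ
    have hpr : (0 : ℝ) < ((p : ℕ) : ℝ) := by exact_mod_cast hpP.2.pos
    have h1 := (hclose p hpS).trans hηN
    -- decompose
    have h2 : chi t (((p : ℕ) : ℝ) * x) = exp (I * (t * Real.log ((p : ℕ) : ℝ) - α p)) *
        exp (I * ((α p + θ : ℝ) : ℂ)) := by
      unfold chi
      rw [← Complex.exp_add, Real.log_mul hpr.ne' hx.ne', hθ]
      congr 1
      push_cast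
      ring
    have h3 : ‖exp (I * (t * Real.log ((p : ℕ) : ℝ) - α p))‖ = 1 := by
      have : I * ((t : ℂ) * Real.log ((p : ℕ) : ℝ) - α p) =
          ((t * Real.log ((p : ℕ) : ℝ) - α p : ℝ) : ℂ) * I := by
        push_cast; ring
      rw [this, Complex.norm_exp_ofReal_mul_I]
    rw [h2]
    refine (norm_mul_sub_one_le _ _ h3).trans ?_
    have hmr : (0 : ℝ) < m := by linarith
    have h4 : exp (I * ((α p + θ : ℝ) : ℂ)) = exp (I * ((2 * Real.pi * q / m + θ : ℝ) : ℂ)) := by
      have hdiv : q = m * (q / m) + q % m := (Int.mul_ediv_add_emod q m).symm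
      have h5 : (q : ℝ) = m * ((q / m : ℤ) : ℝ) + i := by
        have h6 : (q : ℝ) = ((m * (q / m) + q % m : ℤ) : ℝ) := by rw [← hdiv]
        rw [h6, ← hicast]
        push_cast
        ring
      have h7 : (2 * Real.pi * q / m + θ : ℝ) = (α p + θ) + ((q / m : ℤ) : ℝ) * (2 * Real.pi) := by
        rw [hαp, h5]
        field_simp
        ring
      rw [h7]
      have h8 : exp (I * (((q / m : ℤ) : ℂ) * (2 * (Real.pi : ℂ)))) = 1 := by
        rw [show I * (((q / m : ℤ) : ℂ) * (2 * (Real.pi : ℂ))) =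
          ((q / m : ℤ) : ℂ) * (2 * Real.pi * I) by ring]
        exact Complex.exp_int_mul_two_pi_mul_I _
      have h9 : I * (((α p + θ) + ((q / m : ℤ) : ℝ) * (2 * Real.pi) : ℝ) : ℂ) =
          I * ((α p + θ : ℝ) : ℂ) + I * (((q / m : ℤ) : ℂ) * (2 * (Real.pi : ℂ))) := by
        push_cast
        ring
      rw [h9, Complex.exp_add, h8, mul_one]
    rw [h4]
    have h9 : ‖exp (I * ((2 * Real.pi * q / m + θ : ℝ) : ℂ)) - 1‖ ≤ ‖2 * Real.pi * q / m + θ‖ :=
      Real.norm_exp_I_mul_ofReal_sub_one_le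
    have h10 : ‖2 * Real.pi * q / m + θ‖ ≤ η := by
      have h11 : 2 * Real.pi * q / m + θ = (2 * Real.pi / m) * (q - u) := by
        rw [hu]; field_simp; ring
      have h12 : |(q : ℝ) - u| ≤ 1 := by
        rw [abs_le]
        have h13 := Int.floor_le u
        have h14 := Int.lt_floor_add_one u
        constructor <;> linarith
      rw [h11, Real.norm_eq_abs, abs_mul, abs_of_pos (by positivity)]
      have h15 : 2 * Real.pi / m ≤ η := by
        rw [div_le_iff₀ hmr]
        have h16 : 2 * Real.pi / η ≤ m := by linarith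
        rw [div_le_iff₀ hη] at h16
        linarith
      calc 2 * Real.pi / m * |(q : ℝ) - u| ≤ η * 1 := by
            apply mul_le_mul h15 h12 (abs_nonneg _) hη.le
        _ = η := mul_one η
    linarith

/-- **Negative answer to Haight's question.** There is a Borel set `E ⊆ (0, ∞)` of positive
Lebesgue measure and a Borel set `X ⊆ (0, ∞)` of positive Lebesgue measure such that for every
`x ∈ X` there are infinitely many positive integers `n` with `n x ∉ F(E) = ⋃_{r ≥ 1} r E`. -/
theorem result : ∃ E : Set ℝ, MeasurableSet E ∧ E ⊆ Set.Ioi 0 ∧ 0 < volume E ∧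
    ∃ X : Set ℝ, MeasurableSet X ∧ X ⊆ Set.Ioi 0 ∧ 0 < volume X ∧
      ∀ x ∈ X, {n : ℕ | 1 ≤ n ∧ (n : ℝ) * x ∉ dilateUnion E}.Infinite := by
  -- the parameters
  set η : ℕ → ℝ := fun j => (1 / 2) ^ j / 2000 with hη
  have hη0 : ∀ j, 0 < η j := fun j => by simp only [hη]; positivity
  have hη1 : ∀ j, η j ≤ 1 / 2000 := fun j => by
    simp only [hη]
    have : ((1 : ℝ) / 2) ^ j ≤ 1 := pow_le_one₀ (by norm_num) (by norm_num)
    linarith
  choose N t hNj hN1 ht hsmall hdense using fun j : ℕ => stage (η j) (hη0 j) j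
  set E : Set ℝ := Set.Icc 8 9 \ ⋃ j : ℕ, badSet (t j) (3 * η j) with hE
  have hEmeas : MeasurableSet E := by
    apply measurableSet_Icc.diff
    exact MeasurableSet.iUnion fun j => measurableSet_badSet _ _
  refine ⟨E, hEmeas, ?_, ?_, ?_⟩
  · intro y hy
    have := hy.1.1
    rw [Set.mem_Ioi]; linarith
  · -- positive measure
    have hbad : volume (⋃ j : ℕ, badSet (t j) (3 * η j)) ≤ ENNReal.ofReal (162 / 250) := by
      calc volume (⋃ j : ℕ, badSet (t j) (3 * η j))
          ≤ ∑' j, volume (badSet (t j) (3 * η j)) := measure_iUnion_le _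
        _ ≤ ∑' j, ENNReal.ofReal (216 * (3 * η j)) := by
            apply ENNReal.tsum_le_tsum
            intro j
            apply volume_badSet_le _ _ (ht j)
            · have := hη0 j; positivity
            · have := hη1 j; linarith
        _ = ENNReal.ofReal (∑' j, 216 * (3 * η j)) := by
            rw [ENNReal.ofReal_tsum_of_nonneg]
            · intro j; have := hη0 j; positivity
            · simp only [hη]
              have := (summable_geometric_two).mul_left (216 * 3 / 2000 : ℝ)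
              refine this.congr ?_
              intro j; ring
        _ = ENNReal.ofReal (162 / 250) := by
            congr 1
            have h1 : ∀ j : ℕ, 216 * (3 * η j) = (216 * 3 / 2000 : ℝ) * (1 / 2) ^ j := by
              intro j; simp only [hη]; ring
            simp_rw [h1]
            rw [tsum_mul_left, tsum_geometric_two]
            norm_num
    have h8 : volume (Set.Icc (8 : ℝ) 9) = ENNReal.ofReal 1 := by
      rw [Real.volume_Icc]; norm_num
    have h9 : volume (Set.Icc (8 : ℝ) 9) - volume (⋃ j : ℕ, badSet (t j) (3 * η j)) ≤ volume E :=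
      le_measure_sdiff
    refine lt_of_lt_of_le ?_ h9
    rw [h8, tsub_pos_iff_lt]
    refine lt_of_le_of_lt hbad ?_
    rw [ENNReal.ofReal_lt_ofReal_iff (by norm_num)]
    norm_num
  · refine ⟨Set.Ioc 0 2, measurableSet_Ioc, ?_, ?_, ?_⟩
    · intro x hx
      exact hx.1
    · rw [Real.volume_Ioc]; norm_num
    · intro x hx
      have hx0 : 0 < x := hx.1
      rw [Set.infinite_iff_exists_gt]
      intro n0
      obtain ⟨p, hp1, hp2, hp3⟩ := hdense n0 x hx0
      have hn0p : n0 < p := lt_of_le_of_lt (hNj n0) hp1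
      refine ⟨p, ⟨by omega, ?_⟩, hn0p⟩
      rw [mem_dilateUnion]
      rintro ⟨r, hr, e, he, hre⟩
      have he8 := he.1.1
      have he9 := he.1.2
      have hrr : (0 : ℝ) < r := by exact_mod_cast hr
      have hr4 : r ≤ N n0 := by
        have h1 : (r : ℝ) * 8 ≤ 8 * N n0 := by
          calc (r : ℝ) * 8 ≤ r * e := mul_le_mul_of_nonneg_left he8 hrr.le
            _ = p * x := hre
            _ ≤ (4 * N n0 : ℕ) * 2 := by
              apply mul_le_mul _ hx.2 hx0.le (by positivity)
              exact_mod_cast hp2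
            _ = 8 * N n0 := by push_cast; ring
        have h2 : (r : ℝ) ≤ N n0 := by linarith
        exact_mod_cast h2
      have hr1 := hsmall n0 r hr hr4
      have he0 : 0 < e := by linarith
      -- χ(e) = conj χ(r) * χ(p x)
      have h3 : chi (t n0) (p * x) = chi (t n0) r * chi (t n0) e := by
        rw [← hre, chi_mul _ _ _ hrr he0]
      have h4 : ‖chi (t n0) e - 1‖ ≤ 3 * η n0 := by
        have h5 : chi (t n0) r * (chi (t n0) e - 1) =
            (chi (t n0) (p * x) - 1) - (chi (t n0) r - 1) := by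
          rw [h3]; ring
        have h6 : ‖chi (t n0) e - 1‖ = ‖chi (t n0) r * (chi (t n0) e - 1)‖ := by
          rw [norm_mul, norm_chi, one_mul]
        rw [h6, h5]
        refine (norm_sub_le _ _).trans ?_
        linarith
      apply he.2
      rw [Set.mem_iUnion]
      exact ⟨n0, ⟨he8, he9⟩, h4⟩

end Pool.Agent.H32.HaightDisproof
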