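import Mathlib

/-!
Kronecker's theorem on simultaneous inhomogeneous approximation, continuous version, proved by
Bohr's mean value argument.
-/

namespace Pool.Agent.H32

open Complex MeasureTheory Finset Filter Topology

/-- Coefficients of a finite trigonometric sum are bounded by the sup norm on a half line. -/
lemma coeff_le_of_bound {ι : Type*} [DecidableEq ι] (S : Finset ι) (b : ι → ℂ) (c : ι → ℝ)
    (hc : Set.InjOn c S) (T0 M : ℝ)
    (h : ∀ t : ℝ, T0 ≤ t → ‖∑ i ∈ S, b i * exp (I * (c i * t))‖ ≤ M) :
    ∀ j ∈ S, ‖b j‖ ≤ M := by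
  intro j hj
  -- the main estimate
  set C : ℝ := ∑ i ∈ S.erase j, ‖b i‖ * (2 / |c i - c j|) with hC
  have key : ∀ T : ℝ, 0 < T → T * ‖b j‖ ≤ M * T + C := by
    intro T hT
    have h1 : ∫ t in T0..(T0 + T), ∑ i ∈ S, b i * exp (I * ((c i - c j) * t)) =
        T * b j + ∑ i ∈ S.erase j, b i * ((exp (I * (c i - c j) * (T0 + T : ℝ)) -
          exp (I * (c i - c j) * T0)) / (I * (c i - c j))) := by
      rw [intervalIntegral.integral_finsetSum]
      · rw [← Finset.add_sum_erase S _ hj]
        congr 1
        · simp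
        · apply Finset.sum_congr rfl
          intro i hi
          have hne : c i ≠ c j := by
            intro hcc
            exact (Finset.ne_of_mem_erase hi) (hc (Finset.mem_of_mem_erase hi) hj hcc)
          have hne' : I * ((c i : ℂ) - c j) ≠ 0 := by
            apply mul_ne_zero I_ne_zero
            intro h0
            apply hne
            have := sub_eq_zero.mp h0
            exact_mod_cast this
          rw [intervalIntegral.integral_const_mul]
          congr 1
          rw [← integral_exp_mul_complex hne']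
          congr 1
          ext t
          ring_nf
      · intro i _
        apply Continuous.intervalIntegrable
        fun_prop
    have h2 : ‖∫ t in T0..(T0 + T), ∑ i ∈ S, b i * exp (I * ((c i - c j) * t))‖ ≤ M * T := by
      have := intervalIntegral.norm_integral_le_of_norm_le_const (a := T0) (b := T0 + T) (C := M)
        (f := fun t : ℝ => ∑ i ∈ S, b i * exp (I * ((c i - c j) * t))) ?_
      · rwa [add_sub_cancel_left, abs_of_pos hT] at this
      · intro t ht
        rw [Set.uIoc_of_le (by linarith)] at ht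
        have h3 : ∑ i ∈ S, b i * exp (I * ((c i - c j) * t)) =
            (∑ i ∈ S, b i * exp (I * (c i * t))) * exp (I * (-(c j * t))) := by
          rw [Finset.sum_mul]
          apply Finset.sum_congr rfl
          intro i _
          rw [mul_assoc, ← Complex.exp_add]
          congr 2
          ring
        rw [h3, norm_mul]
        have h4 : ‖exp (I * (-(c j * t)))‖ = 1 := by
          have : I * (-((c j : ℂ) * t)) = ((-(c j * t) : ℝ) : ℂ) * I := by
            push_cast; ring
          rw [this, Complex.norm_exp_ofReal_mul_I]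
        rw [h4, mul_one]
        exact h t ht.1.le
    have h5 : ‖∑ i ∈ S.erase j, b i * ((exp (I * (c i - c j) * (T0 + T : ℝ)) -
          exp (I * (c i - c j) * T0)) / (I * (c i - c j)))‖ ≤ C := by
      rw [hC]
      refine (norm_sum_le _ _).trans (Finset.sum_le_sum ?_)
      intro i _
      rw [norm_mul]
      apply mul_le_mul_of_nonneg_left _ (norm_nonneg _)
      rw [norm_div, norm_mul, norm_I, one_mul]
      have e1 : ∀ s : ℝ, ‖exp (I * ((c i : ℂ) - c j) * s)‖ = 1 := by
        intro s
        have : I * ((c i : ℂ) - c j) * s = (((c i - c j) * s : ℝ) : ℂ) * I := by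
          push_cast; ring
        rw [this, Complex.norm_exp_ofReal_mul_I]
      have e2 : ‖(c i : ℂ) - c j‖ = |c i - c j| := by
        rw [← Complex.ofReal_sub, Complex.norm_real, Real.norm_eq_abs]
      rw [e2]
      apply div_le_div_of_nonneg_right _ (abs_nonneg _)
      refine (norm_sub_le _ _).trans ?_
      rw [e1, e1]
      norm_num
    have h6 : (T : ℂ) * b j = (∫ t in T0..(T0 + T), ∑ i ∈ S, b i * exp (I * ((c i - c j) * t))) -
        ∑ i ∈ S.erase j, b i * ((exp (I * (c i - c j) * (T0 + T : ℝ)) -
          exp (I * (c i - c j) * T0)) / (I * (c i - c j))) := by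
      rw [h1]; ring
    have h7 : T * ‖b j‖ = ‖(T : ℂ) * b j‖ := by
      rw [norm_mul, Complex.norm_real, Real.norm_eq_abs, abs_of_pos hT]
    rw [h7, h6]
    refine (norm_sub_le _ _).trans ?_
    linarith
  have hC0 : 0 ≤ C := by
    rw [hC]
    apply Finset.sum_nonneg
    intro i _
    positivity
  by_contra hlt
  push Not at hlt
  have hpos : 0 < ‖b j‖ - M := by linarith
  have := key ((C + 1) / (‖b j‖ - M)) (by positivity)
  have h8 : (C + 1) / (‖b j‖ - M) * (‖b j‖ - M) = C + 1 := by
    field_simp
  nlinarith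

/-- Kronecker's theorem (continuous version) in exponential form. The independence hypothesis is
stated as injectivity of natural number combinations. -/
theorem kronecker {ι : Type*} [Fintype ι] (l : ι → ℝ)
    (hinj : Function.Injective (fun m : ι → ℕ => ∑ i, (m i : ℝ) * l i))
    (α : ι → ℝ) (ε : ℝ) (hε : 0 < ε) (T0 : ℝ) :
    ∃ t : ℝ, T0 ≤ t ∧ ∀ i, ‖exp (I * (l i * t - α i)) - 1‖ ≤ ε := by
  classical
  by_contra hcon
  push Not at hcon
  -- the exponential sum
  set z : ι → ℝ → ℂ := fun i t => exp (I * (l i * t - α i)) with hz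
  have hz1 : ∀ i t, ‖z i t‖ = 1 := by
    intro i t
    have : I * ((l i : ℂ) * t - α i) = ((l i * t - α i : ℝ) : ℂ) * I := by
      push_cast; ring
    simp only [hz]
    rw [this, Complex.norm_exp_ofReal_mul_I]
  set k : ℝ := (Fintype.card ι : ℝ) with hk
  -- sup bound
  obtain ⟨δ, hδ0, hδ1, hδ⟩ : ∃ δ : ℝ, 0 < δ ∧ δ < 1 ∧ ∀ w : ℂ, ‖w‖ = 1 → ε < ‖w - 1‖ →
      ‖1 + w‖ ≤ 2 - δ := by
    refine ⟨min (ε ^ 2 / 4) (1/2), by positivity, by
      exact lt_of_le_of_lt (min_le_right _ _) (by norm_num), ?_⟩
    intro w hw hwε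
    have h1 : ‖1 + w‖ ^ 2 + ‖w - 1‖ ^ 2 = 4 := by
      have := parallelogram_law_with_norm ℝ w 1
      rw [hw] at this
      simp only [norm_one] at this
      rw [add_comm (1 : ℂ) w]
      nlinarith
    have h2 : ε ^ 2 ≤ ‖w - 1‖ ^ 2 := by
      apply pow_le_pow_left₀ hε.le hwε.le
    have h3 : min (ε ^ 2 / 4) (1/2) ≤ ε ^ 2 / 4 := min_le_left _ _
    have h4 : min (ε ^ 2 / 4) (1/2) ≤ 1/2 := min_le_right _ _
    set δ := min (ε ^ 2 / 4) (1/2)
    have hδ0 : 0 < δ := by positivity
    by_contra hlt
    push Not at hlt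
    have h5 : (2 - δ) ^ 2 < ‖1 + w‖ ^ 2 := pow_lt_pow_left₀ hlt (by linarith) two_ne_zero
    nlinarith
  have hsup : ∀ t : ℝ, T0 ≤ t → ‖1 + ∑ i, z i t‖ ≤ k + 1 - δ := by
    intro t ht
    obtain ⟨i, hi⟩ := hcon t ht
    rw [← Finset.add_sum_erase Finset.univ _ (Finset.mem_univ i), ← add_assoc]
    refine (norm_add_le _ _).trans ?_
    have h1 := hδ (z i t) (hz1 i t) hi
    have h2 : ‖∑ j ∈ Finset.univ.erase i, z j t‖ ≤ k - 1 := by
      refine (norm_sum_le _ _).trans ?_
      simp only [hz1]
      rw [Finset.sum_const, Finset.card_erase_of_mem (Finset.mem_univ i), Finset.card_univ]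
      have hpos : 1 ≤ Fintype.card ι := Fintype.card_pos_iff.mpr ⟨i⟩
      rw [nsmul_eq_mul, mul_one, Nat.cast_sub hpos]
      simp [hk]
    linarith
  have hk0 : 0 ≤ k := by simp [hk]
  set M : ℝ := k + 1 - δ with hM
  have hM0 : 0 ≤ M := by linarith
  -- the power expansion
  set z' : Option ι → ℝ → ℂ := fun o t => o.elim 1 (fun i => z i t) with hz'
  have hexp : ∀ (p : ℕ) (t : ℝ), (1 + ∑ i, z i t) ^ p =
      ∑ m ∈ Finset.piAntidiag (Finset.univ : Finset (Option ι)) p,
        ((Nat.multinomial Finset.univ m : ℂ) * exp (-I * ∑ i, (m (some i) : ℂ) * α i)) *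
          exp (I * (((∑ i, (m (some i) : ℝ) * l i : ℝ) : ℂ) * t)) := by
    intro p t
    have h1 : 1 + ∑ i, z i t = ∑ o, z' o t := by
      rw [Fintype.sum_option]
      simp [hz']
    rw [h1, Finset.sum_pow_eq_sum_piAntidiag]
    apply Finset.sum_congr rfl
    intro m _
    rw [mul_assoc]
    congr 1
    rw [Fintype.prod_option]
    simp only [hz', Option.elim, one_pow, one_mul, hz]
    rw [← Complex.exp_add]
    simp_rw [← Complex.exp_nat_mul]
    rw [← Complex.exp_sum]
    congr 1
    push_cast
    rw [Finset.sum_mul, Finset.mul_sum, Finset.mul_sum, ← Finset.sum_add_distrib]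
    apply Finset.sum_congr rfl
    intro i _
    ring
  have hcoef : ∀ p : ℕ, ∀ m ∈ Finset.piAntidiag (Finset.univ : Finset (Option ι)) p,
      (Nat.multinomial Finset.univ m : ℝ) ≤ M ^ p := by
    intro p m hm
    have h1 := coeff_le_of_bound (Finset.piAntidiag (Finset.univ : Finset (Option ι)) p)
      (fun m => (Nat.multinomial Finset.univ m : ℂ) * exp (-I * ∑ i, (m (some i) : ℂ) * α i))
      (fun m => ∑ i, (m (some i) : ℝ) * l i) ?_ T0 (M ^ p) ?_ m hm
    · have h2 : ‖exp (-I * ∑ i, (m (some i) : ℂ) * α i)‖ = 1 := by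
        have : -I * ∑ i, (m (some i) : ℂ) * α i =
            ((-∑ i, (m (some i) : ℝ) * α i : ℝ) : ℂ) * I := by
          push_cast; ring
        rw [this, Complex.norm_exp_ofReal_mul_I]
      rw [norm_mul, h2, mul_one] at h1
      simpa using h1
    · intro m1 hm1 m2 hm2 h12
      have h3 : (fun i => m1 (some i)) = (fun i => m2 (some i)) := hinj h12
      have h4 : ∀ i, m1 (some i) = m2 (some i) := fun i => congrFun h3 i
      have hs1 : ∑ o, m1 o = p := by
        have := (Finset.mem_piAntidiag.mp hm1).1
        simpa using this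
      have hs2 : ∑ o, m2 o = p := by
        have := (Finset.mem_piAntidiag.mp hm2).1
        simpa using this
      rw [Fintype.sum_option] at hs1 hs2
      have h5 : ∑ i, m1 (some i) = ∑ i, m2 (some i) := Finset.sum_congr rfl (fun i _ => h4 i)
      funext o
      cases o with
      | none => omega
      | some i => exact h4 i
    · intro t ht
      rw [← hexp p t, norm_pow]
      exact pow_le_pow_left₀ (norm_nonneg _) (hsup t ht) p
  -- counting
  have hcard : ∀ p : ℕ, ((Finset.piAntidiag (Finset.univ : Finset (Option ι)) p).card : ℝ) ≤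
      ((p : ℝ) + 1) ^ Fintype.card ι := by
    intro p
    have h1 : (Finset.piAntidiag (Finset.univ : Finset (Option ι)) p).card ≤
        (Fintype.piFinset (fun _ : ι => Finset.range (p + 1))).card := by
      apply Finset.card_le_card_of_injOn (fun m i => m (some i))
      · intro m hm
        have hs1 : ∑ o, m o = p := by
          have := (Finset.mem_piAntidiag.mp hm).1
          simpa using this
        rw [Finset.mem_coe, Fintype.mem_piFinset]
        intro i
        rw [Finset.mem_range]
        show m (some i) < p + 1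
        have : m (some i) ≤ ∑ o, m o := Finset.single_le_sum (fun _ _ => Nat.zero_le _)
          (Finset.mem_univ _)
        omega
      · intro m1 hm1 m2 hm2 h12
        have h4 : ∀ i, m1 (some i) = m2 (some i) := fun i => congrFun h12 i
        have hs1 : ∑ o, m1 o = p := by
          have := (Finset.mem_piAntidiag.mp hm1).1
          simpa using this
        have hs2 : ∑ o, m2 o = p := by
          have := (Finset.mem_piAntidiag.mp hm2).1
          simpa using this
        rw [Fintype.sum_option] at hs1 hs2
        have h5 : ∑ i, m1 (some i) = ∑ i, m2 (some i) := Finset.sum_congr rfl (fun i _ => h4 i)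
        funext o
        cases o with
        | none => omega
        | some i => exact h4 i
    rw [Fintype.card_piFinset] at h1
    simp only [Finset.card_range, Finset.prod_const, Finset.card_univ] at h1
    calc ((Finset.piAntidiag (Finset.univ : Finset (Option ι)) p).card : ℝ)
        ≤ (((p + 1) ^ Fintype.card ι : ℕ) : ℝ) := by exact_mod_cast h1
      _ = _ := by push_cast; ring
  have htot : ∀ p : ℕ, (k + 1) ^ p ≤ ((p : ℝ) + 1) ^ Fintype.card ι * M ^ p := by
    intro p
    have h1 : (k + 1) ^ p = ∑ m ∈ Finset.piAntidiag (Finset.univ : Finset (Option ι)) p,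
        (Nat.multinomial Finset.univ m : ℝ) := by
      have h2 := Finset.sum_pow_eq_sum_piAntidiag (Finset.univ : Finset (Option ι))
        (fun _ => (1 : ℝ)) p
      simp only [Finset.sum_const, Finset.card_univ, Fintype.card_option, nsmul_eq_mul, mul_one,
        one_pow, Finset.prod_const_one] at h2
      rw [← h2]
      push_cast
      rw [hk]
    rw [h1]
    calc ∑ m ∈ Finset.piAntidiag (Finset.univ : Finset (Option ι)) p,
        (Nat.multinomial Finset.univ m : ℝ)
        ≤ ∑ m ∈ Finset.piAntidiag (Finset.univ : Finset (Option ι)) p, M ^ p :=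
          Finset.sum_le_sum (hcoef p)
      _ = ((Finset.piAntidiag (Finset.univ : Finset (Option ι)) p).card : ℝ) * M ^ p := by
          rw [Finset.sum_const, nsmul_eq_mul]
      _ ≤ _ := by
          apply mul_le_mul_of_nonneg_right (hcard p) (by positivity)
  -- contradiction
  set r : ℝ := M / (k + 1) with hr
  have hr0 : 0 ≤ r := by positivity
  have hr1 : r < 1 := by
    rw [hr, div_lt_one (by positivity)]
    linarith
  have hlim := tendsto_pow_const_mul_const_pow_of_abs_lt_one (Fintype.card ι) (r := r)
    (by rw [abs_of_nonneg hr0]; exact hr1)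
  have hlim2 : Tendsto (fun p : ℕ => (2 : ℝ) ^ Fintype.card ι * ((p : ℝ) ^ Fintype.card ι * r ^ p))
      atTop (𝓝 0) := by
    have := hlim.const_mul ((2 : ℝ) ^ Fintype.card ι)
    simpa using this
  have hev := (hlim2.eventually (gt_mem_nhds (zero_lt_one))).and (eventually_ge_atTop 1)
  obtain ⟨p, hp, hp1⟩ := hev.exists
  have h1 := htot p
  have h2 : (p : ℝ) + 1 ≤ 2 * p := by
    have : (1 : ℝ) ≤ p := by exact_mod_cast hp1
    linarith
  have h3 : ((p : ℝ) + 1) ^ Fintype.card ι ≤ 2 ^ Fintype.card ι * (p : ℝ) ^ Fintype.card ι := by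
    rw [← mul_pow]
    exact pow_le_pow_left₀ (by positivity) h2 _
  have h4 : M ^ p = r ^ p * (k + 1) ^ p := by
    rw [hr, div_pow]
    field_simp
  have h5 : (k + 1) ^ p ≤ (2 ^ Fintype.card ι * ((p : ℝ) ^ Fintype.card ι * r ^ p)) * (k + 1) ^ p := by
    calc (k + 1) ^ p ≤ ((p : ℝ) + 1) ^ Fintype.card ι * M ^ p := h1
      _ ≤ (2 ^ Fintype.card ι * (p : ℝ) ^ Fintype.card ι) * M ^ p :=
          mul_le_mul_of_nonneg_right h3 (by positivity)
      _ = _ := by rw [h4]; ring
  have h6 : 0 < (k + 1) ^ p := by positivity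
  nlinarith

end Pool.Agent.H32
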