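import Pool.Agent.H32.Kronecker

/-!
Kronecker's theorem for the logarithms of primes, and the completely multiplicative consequence
for all integers up to a bound.
-/

namespace Pool.Agent.H32

open Complex MeasureTheory Finset Filter Topology

/-- Natural number combinations of the logarithms of distinct primes are distinct. -/
lemma log_primes_injective (S : Finset ℕ) (hS : ∀ p ∈ S, p.Prime) :
    Function.Injective (fun m : S → ℕ => ∑ i, (m i : ℝ) * Real.log ((i : ℕ) : ℝ)) := by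
  intro m1 m2 h
  have hlog : ∀ m : S → ℕ, ∑ i, (m i : ℝ) * Real.log ((i : ℕ) : ℝ) =
      Real.log ((∏ i : S, ((i : ℕ)) ^ (m i) : ℕ) : ℝ) := by
    intro m
    push_cast
    rw [Real.log_prod]
    · apply Finset.sum_congr rfl
      intro i _
      rw [Real.log_pow]
    · intro i _
      have : (0 : ℝ) < ((i : ℕ) : ℝ) := by exact_mod_cast (hS i i.2).pos
      positivity
  have hpos : ∀ m : S → ℕ, 0 < (∏ i : S, ((i : ℕ)) ^ (m i) : ℕ) := by
    intro m
    apply Finset.prod_pos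
    intro i _
    exact pow_pos (hS i i.2).pos _
  have h1 : (∏ i : S, ((i : ℕ)) ^ (m1 i) : ℕ) = (∏ i : S, ((i : ℕ)) ^ (m2 i) : ℕ) := by
    have h2 : Real.log ((∏ i : S, ((i : ℕ)) ^ (m1 i) : ℕ) : ℝ) =
        Real.log ((∏ i : S, ((i : ℕ)) ^ (m2 i) : ℕ) : ℝ) := by
      rw [← hlog, ← hlog]; exact h
    have h3 := Real.log_injOn_pos (Set.mem_Ioi.mpr (by exact_mod_cast hpos m1))
      (Set.mem_Ioi.mpr (by exact_mod_cast hpos m2)) h2
    exact_mod_cast h3
  have hfac : ∀ (m : S → ℕ) (j : S),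
      (∏ i : S, ((i : ℕ)) ^ (m i) : ℕ).factorization j = m j := by
    intro m j
    rw [Nat.factorization_prod]
    · rw [Finset.sum_apply']
      rw [Finset.sum_eq_single j]
      · rw [(hS j j.2).factorization_pow]
        simp
      · intro i _ hij
        rw [(hS i i.2).factorization_pow]
        rw [Finsupp.single_apply, if_neg]
        intro h
        exact hij (Subtype.ext h)
      · simp
    · intro i _
      exact pow_ne_zero _ (hS i i.2).ne_zero
  funext j
  rw [← hfac m1 j, ← hfac m2 j, h1]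

/-- Kronecker's theorem for logarithms of primes. -/
theorem kronecker_primes (S : Finset ℕ) (hS : ∀ p ∈ S, p.Prime) (α : ℕ → ℝ) (ε : ℝ) (hε : 0 < ε)
    (T0 : ℝ) :
    ∃ t : ℝ, T0 ≤ t ∧ ∀ p ∈ S, ‖exp (I * (t * Real.log (p : ℝ) - α p)) - 1‖ ≤ ε := by
  obtain ⟨t, ht, h⟩ := kronecker (fun i : S => Real.log ((i : ℕ) : ℝ))
    (log_primes_injective S hS) (fun i => α i) ε hε T0
  refine ⟨t, ht, ?_⟩
  intro p hp
  have := h ⟨p, hp⟩
  simp only at this
  rwa [mul_comm ((Real.log (p : ℝ) : ℝ) : ℂ) (t : ℂ)] at this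

/-- The character `x ↦ x^{it}`. -/
noncomputable def chi (t x : ℝ) : ℂ := exp (I * (t * Real.log x))

lemma chi_eq (t x : ℝ) : chi t x = exp (((t * Real.log x : ℝ) : ℂ) * I) := by
  unfold chi
  congr 1
  push_cast
  ring

lemma norm_chi (t x : ℝ) : ‖chi t x‖ = 1 := by
  rw [chi_eq, Complex.norm_exp_ofReal_mul_I]

lemma chi_mul (t x y : ℝ) (hx : 0 < x) (hy : 0 < y) : chi t (x * y) = chi t x * chi t y := by
  unfold chi
  rw [← Complex.exp_add, Real.log_mul hx.ne' hy.ne']
  congr 1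
  push_cast
  ring

lemma chi_one (t : ℝ) : chi t 1 = 1 := by
  simp [chi]

lemma norm_mul_sub_one_le (z w : ℂ) (hz : ‖z‖ = 1) : ‖z * w - 1‖ ≤ ‖z - 1‖ + ‖w - 1‖ := by
  have : z * w - 1 = z * (w - 1) + (z - 1) := by ring
  rw [this]
  refine (norm_add_le _ _).trans ?_
  rw [norm_mul, hz, one_mul, add_comm]

/-- If `χ` is `ε`-close to `1` at all primes `≤ N`, it is `k ε` close to `1` at all `k ≤ N`. -/
lemma chi_nat_close (t ε : ℝ) (hε : 0 ≤ ε) (N : ℕ)
    (h : ∀ p : ℕ, p.Prime → p ≤ N → ‖chi t p - 1‖ ≤ ε) :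
    ∀ k : ℕ, 1 ≤ k → k ≤ N → ‖chi t k - 1‖ ≤ k * ε := by
  intro k
  induction k using Nat.strong_induction_on with
  | _ k ih =>
    intro hk1 hkN
    rcases Nat.lt_or_ge 1 k with hk | hk
    · obtain ⟨m, hm⟩ := Nat.minFac_dvd k
      have hp : (Nat.minFac k).Prime := Nat.minFac_prime (by omega)
      set q := Nat.minFac k with hq
      have hq2 := hp.two_le
      have hmpos : 1 ≤ m := by
        rcases Nat.eq_zero_or_pos m with h0 | h0
        · rw [h0, mul_zero] at hm; omega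
        · exact h0
      have hmk : m < k := by
        rw [hm]; nlinarith
      have hqk : q ≤ k := by
        rw [hm]; nlinarith
      have h1 := ih m hmk hmpos (by omega)
      have h2 := h q hp (by omega)
      have h3 : chi t (k : ℝ) = chi t (q : ℝ) * chi t (m : ℝ) := by
        rw [← chi_mul t _ _ (by exact_mod_cast hp.pos) (by exact_mod_cast hmpos)]
        congr 1
        rw [hm]; push_cast; ring
      rw [h3]
      refine (norm_mul_sub_one_le _ _ (norm_chi _ _)).trans ?_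
      have h4 : (m : ℝ) + 1 ≤ k := by exact_mod_cast hmk
      nlinarith
    · have : k = 1 := by omega
      subst this
      simp [chi_one, hε]

/-- There are arbitrarily many primes in some interval `(N, 4 N]` with `N` large. -/
lemma exists_many_primes (m N0 : ℕ) : ∃ N : ℕ, N0 ≤ N ∧ 1 ≤ N ∧
    m ≤ ((Finset.Ioc N (4 * N)).filter Nat.Prime).card := by
  -- choose k with (k + 2) (m + 5) ≤ 2 ^ k
  have hlim := tendsto_pow_const_mul_const_pow_of_abs_lt_one 1 (r := (1/2 : ℝ))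
    (by rw [abs_of_nonneg (by norm_num)]; norm_num)
  have hlim2 : Tendsto (fun k : ℕ => (3 * ((m : ℝ) + 5)) * ((k : ℝ) ^ 1 * (1/2 : ℝ) ^ k))
      atTop (𝓝 0) := by
    have := hlim.const_mul (3 * ((m : ℝ) + 5))
    simpa using this
  have hev := (hlim2.eventually (gt_mem_nhds (zero_lt_one))).and
    ((eventually_ge_atTop 1).and (eventually_ge_atTop N0))
  obtain ⟨k, hk, hk1, hkN⟩ := hev.exists
  have hk2 : ((k : ℝ) + 2) * (m + 5) ≤ 2 ^ k := by
    have h1 : (1 : ℝ) ≤ k := by exact_mod_cast hk1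
    have h2 : (0 : ℝ) < 2 ^ k := by positivity
    have h3 : (1/2 : ℝ) ^ k * 2 ^ k = 1 := by
      rw [← mul_pow]; norm_num
    have h4 : ((k : ℝ) + 2) ≤ 3 * k := by linarith
    have h5 : (3 * ((m : ℝ) + 5)) * ((k : ℝ) ^ 1 * (1/2 : ℝ) ^ k) * 2 ^ k ≤ 1 * 2 ^ k :=
      mul_le_mul_of_nonneg_right hk.le h2.le
    have h6 : (3 * ((m : ℝ) + 5)) * ((k : ℝ) ^ 1 * (1/2 : ℝ) ^ k) * 2 ^ k =
        (3 * ((m : ℝ) + 5)) * k * ((1/2 : ℝ) ^ k * 2 ^ k) := by ring
    rw [h6, h3, mul_one, one_mul] at h5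
    have h7 : ((k : ℝ) + 2) * (m + 5) ≤ 3 * k * (m + 5) :=
      mul_le_mul_of_nonneg_right h4 (by positivity)
    linarith
  refine ⟨4 ^ k, ?_, Nat.one_le_pow _ _ (by norm_num), ?_⟩
  · calc N0 ≤ k := hkN
      _ ≤ 4 ^ k := (Nat.lt_pow_self (by norm_num)).le
  · -- the count
    set N : ℕ := 4 ^ k with hN
    have hN1 : 1 ≤ N := Nat.one_le_pow _ _ (by norm_num)
    have hup := Chebyshev.theta_le_log4_mul_x (x := (N : ℝ)) (by positivity)
    have hlow := Chebyshev.theta_ge (4 * N)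
    have hdiff : Chebyshev.theta ((4 * N : ℕ) : ℝ) - Chebyshev.theta (N : ℝ) ≤
        (((Finset.Ioc N (4 * N)).filter Nat.Prime).card : ℝ) * Real.log ((4 * N : ℕ) : ℝ) := by
      have e1 : Chebyshev.theta ((4 * N : ℕ) : ℝ) = ∑ p ∈ (Finset.Ioc 0 (4 * N)).filter Nat.Prime,
          Real.log (p : ℝ) := by
        unfold Chebyshev.theta
        rw [Nat.floor_natCast]
      have e2 : Chebyshev.theta ((N : ℕ) : ℝ) = ∑ p ∈ (Finset.Ioc 0 N).filter Nat.Prime,
          Real.log (p : ℝ) := by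
        unfold Chebyshev.theta
        rw [Nat.floor_natCast]
      have e3 : (Finset.Ioc 0 (4 * N)).filter Nat.Prime =
          (Finset.Ioc 0 N).filter Nat.Prime ∪ (Finset.Ioc N (4 * N)).filter Nat.Prime := by
        rw [← Finset.filter_union, Finset.Ioc_union_Ioc_eq_Ioc (Nat.zero_le _) (by omega)]
      have e4 : Disjoint ((Finset.Ioc 0 N).filter Nat.Prime)
          ((Finset.Ioc N (4 * N)).filter Nat.Prime) := by
        apply Finset.disjoint_filter_filter
        rw [Finset.disjoint_left]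
        intro a ha hb
        rw [Finset.mem_Ioc] at ha hb
        omega
      rw [e1, e2, e3, Finset.sum_union e4, add_sub_cancel_left]
      rw [← nsmul_eq_mul]
      apply Finset.sum_le_card_nsmul
      intro p hp
      rw [Finset.mem_filter, Finset.mem_Ioc] at hp
      apply Real.log_le_log
      · exact_mod_cast hp.2.pos
      · exact_mod_cast hp.1.2
    have hl2 : 0 < Real.log 2 := Real.log_pos (by norm_num)
    have hlog4 : Real.log 4 = 2 * Real.log 2 := by
      rw [show (4 : ℝ) = 2 ^ 2 by norm_num, Real.log_pow]; norm_num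
    have hNr : (N : ℝ) = 4 ^ k := by rw [hN]; push_cast; ring
    have h4N : ((4 * N : ℕ) : ℝ) = 4 ^ (k + 1) := by push_cast; rw [hNr]; ring
    have hlog4N : Real.log ((4 * N : ℕ) : ℝ) = (k + 1) * (2 * Real.log 2) := by
      rw [h4N, Real.log_pow, hlog4]; push_cast; ring
    have hlog4N1 : Real.log (((4 * N : ℕ) : ℝ) + 1) ≤ (k + 2) * (2 * Real.log 2) := by
      have : Real.log (((4 * N : ℕ) : ℝ) + 1) ≤ Real.log ((4 : ℝ) ^ (k + 2)) := by
        apply Real.log_le_log (by positivity)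
        rw [h4N]
        have : (1 : ℝ) ≤ 4 ^ (k + 1) := one_le_pow₀ (by norm_num)
        rw [pow_succ (4 : ℝ) (k + 1)]
        linarith
      rw [Real.log_pow, hlog4] at this
      push_cast at this ⊢
      linarith
    have hsqrt : √((4 * N : ℕ) : ℝ) = 2 * 2 ^ k := by
      rw [h4N]
      have : (4 : ℝ) ^ (k + 1) = (2 * 2 ^ k) ^ 2 := by
        rw [mul_pow, ← pow_mul, mul_comm k 2, pow_mul]; ring
      rw [this, Real.sqrt_sq (by positivity)]
    rw [hsqrt, hlog4N] at hlow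
    rw [hlog4N] at hdiff
    rw [hlog4] at hup
    have hpow : (4 : ℝ) ^ k = 2 ^ k * 2 ^ k := by
      rw [← mul_pow]; norm_num
    set c : ℝ := (((Finset.Ioc N (4 * N)).filter Nat.Prime).card : ℝ) with hc
    have hL : ((4 * N : ℕ) : ℝ) * Real.log 2 = 4 * (2 ^ k * 2 ^ k) * Real.log 2 := by
      push_cast; rw [hNr, hpow]
    rw [hL] at hlow
    rw [hNr, hpow] at hup
    rw [hNr] at hdiff
    have hup' : Chebyshev.theta ((4 : ℝ) ^ k) ≤ 2 * Real.log 2 * (2 ^ k * 2 ^ k) := by
      rw [hpow]; exact hup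
    -- put together, divide by 2 log 2
    have h1 : (2 * Real.log 2) * (2 ^ k * 2 ^ k - (k + 2) - 2 * (2 * 2 ^ k) * (k + 1)) ≤
        (2 * Real.log 2) * (c * (k + 1)) := by
      nlinarith
    have h2 : 2 ^ k * 2 ^ k - ((k : ℝ) + 2) - 2 * (2 * 2 ^ k) * (k + 1) ≤ c * (k + 1) :=
      le_of_mul_le_mul_left h1 (by positivity)
    have h3 : (1 : ℝ) ≤ 2 ^ k := one_le_pow₀ (by norm_num)
    have hk0 : (0 : ℝ) ≤ k := by positivity
    have h4 : ((k : ℝ) + 2) * (m + 5) * 2 ^ k ≤ 2 ^ k * 2 ^ k :=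
      mul_le_mul_of_nonneg_right hk2 (by positivity)
    have hm0 : (0 : ℝ) ≤ m := by positivity
    have h5 : (m : ℝ) * (k + 1) ≤ c * (k + 1) := by
      have h6 : (m : ℝ) * (k + 1) ≤ m * (k + 2) * 2 ^ k := by
        have : (m : ℝ) * (k + 1) ≤ m * (k + 2) := by nlinarith
        have h7 : (m : ℝ) * (k + 2) * 1 ≤ m * (k + 2) * 2 ^ k :=
          mul_le_mul_of_nonneg_left h3 (by positivity)
        linarith
      have h8 : ((k : ℝ) + 2) ≤ (k + 2) * 2 ^ k := by nlinarith
      nlinarith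
    have h9 : (m : ℝ) ≤ c := le_of_mul_le_mul_right h5 (by positivity)
    rw [hc] at h9
    exact_mod_cast h9

end Pool.Agent.H32
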