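import Mathlib

/-!
# The Lempert function: definition, upper semicontinuity, limits of analytic discs
-/

namespace Pool.Agent.H32

open Metric Set Filter Topology
open scoped ENNReal

/-- `ℂⁿ` with its Euclidean norm. -/
abbrev Cn (n : ℕ) : Type := EuclideanSpace ℂ (Fin n)

/-- `DiscThrough D z w lam`: some holomorphic map `f` from the unit disc to `D` has `f 0 = z` and
`f lam = w`. -/
def DiscThrough {n : ℕ} (D : Set (Cn n)) (z w : Cn n) (lam : ℂ) : Prop :=
  ∃ f : ℂ → Cn n, DifferentiableOn ℂ f (ball 0 1) ∧ MapsTo f (ball 0 1) D ∧ f 0 = z ∧ f lam = w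

/-- The Lempert function of `D`, with values in `[0, ∞]`: the infimum of `artanh |lam|` over all
`lam` in the unit disc such that some holomorphic `f : 𝔻 → D` has `f 0 = z` and `f lam = w`. -/
noncomputable def lempert {n : ℕ} (D : Set (Cn n)) (z w : Cn n) : ℝ≥0∞ :=
  sInf {t | ∃ lam : ℂ, ‖lam‖ < 1 ∧ DiscThrough D z w lam ∧ t = ENNReal.ofReal (Real.artanh ‖lam‖)}

lemma lempert_lt_iff {n : ℕ} {D : Set (Cn n)} {z w : Cn n} {c : ℝ≥0∞} :
    lempert D z w < c ↔
      ∃ lam : ℂ, ‖lam‖ < 1 ∧ DiscThrough D z w lam ∧ ENNReal.ofReal (Real.artanh ‖lam‖) < c := by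
  unfold lempert
  rw [sInf_lt_iff]
  constructor
  · rintro ⟨t, ⟨lam, h1, h2, rfl⟩, h3⟩
    exact ⟨lam, h1, h2, h3⟩
  · rintro ⟨lam, h1, h2, h3⟩
    exact ⟨_, ⟨lam, h1, h2, rfl⟩, h3⟩

lemma lempert_le {n : ℕ} {D : Set (Cn n)} {z w : Cn n} {lam : ℂ} (h1 : ‖lam‖ < 1)
    (h2 : DiscThrough D z w lam) : lempert D z w ≤ ENNReal.ofReal (Real.artanh ‖lam‖) :=
  sInf_le ⟨lam, h1, h2, rfl⟩

lemma continuousAt_artanh {x : ℝ} (hx : x ∈ Ioo (-1 : ℝ) 1) : ContinuousAt Real.artanh x := by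
  unfold Real.artanh
  have h1 : 0 < 1 - x := by linarith [hx.2]
  have h2 : 0 < 1 + x := by linarith [hx.1]
  apply ContinuousAt.log
  · apply Continuous.continuousAt Real.continuous_sqrt |>.comp
    apply ContinuousAt.div
    · fun_prop
    · fun_prop
    · exact h1.ne'
  · exact (Real.sqrt_pos_of_pos (div_pos h2 h1)).ne'

/-- A slightly larger parameter still has `artanh` below `c`. -/
lemma exists_rescale {s : ℝ} (hs0 : 0 ≤ s) (hs : s < 1) {c : ℝ≥0∞}
    (hc : ENNReal.ofReal (Real.artanh s) < c) :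
    ∃ r : ℝ, s < r ∧ 0 < r ∧ r < 1 ∧ ENNReal.ofReal (Real.artanh (s / r)) < c ∧ s / r < 1 := by
  have h1 : ContinuousAt (fun r : ℝ => ENNReal.ofReal (Real.artanh (s / r))) 1 := by
    apply ENNReal.continuous_ofReal.continuousAt.comp
    have h2 : ContinuousAt (fun r : ℝ => s / r) 1 := by
      apply ContinuousAt.div
      · fun_prop
      · fun_prop
      · norm_num
    have h3 : ContinuousAt Real.artanh (s / 1) := by
      rw [div_one]
      exact continuousAt_artanh ⟨by linarith, hs⟩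
    exact ContinuousAt.comp (f := fun r : ℝ => s / r) h3 h2
  have h2 : ∀ᶠ r in 𝓝 (1 : ℝ), ENNReal.ofReal (Real.artanh (s / r)) < c := by
    apply h1.eventually_lt_const
    simpa using hc
  have h3 : ∀ᶠ r in 𝓝[<] (1 : ℝ), ENNReal.ofReal (Real.artanh (s / r)) < c ∧ max s 0 < r ∧ r < 1 := by
    refine (h2.filter_mono nhdsWithin_le_nhds).and ?_
    refine (Ioo_mem_nhdsLT (a := max s 0) (b := (1 : ℝ)) ?_)
    exact max_lt hs one_pos
  obtain ⟨r, hr1, hr2, hr3⟩ := h3.exists
  have hs' : s < r := lt_of_le_of_lt (le_max_left _ _) hr2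
  have hr0 : 0 < r := lt_of_le_of_lt (le_max_right _ _) hr2
  exact ⟨r, hs', hr0, hr3, hr1, (div_lt_one hr0).mpr hs'⟩

/-- Rescaled discs. -/
lemma differentiableOn_rescale {n : ℕ} {f : ℂ → Cn n} (hf : DifferentiableOn ℂ f (ball 0 1)) {r : ℝ}
    (hr0 : 0 < r) (hr1 : r ≤ 1) : DifferentiableOn ℂ (fun ζ => f (r * ζ)) (ball 0 1) := by
  apply hf.comp
  · fun_prop
  · intro ζ hζ
    rw [mem_ball_zero_iff] at hζ ⊢
    rw [norm_mul, Complex.norm_real, Real.norm_eq_abs, abs_of_pos hr0]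
    nlinarith [norm_nonneg ζ]

/-- The Lempert function of an open set is upper semicontinuous. -/
lemma lempert_upper {n : ℕ} {D : Set (Cn n)} (hD : IsOpen D) {z w : Cn n} (hz : z ∈ D)
    {c : ℝ≥0∞} (hc : lempert D z w < c) :
    ∀ᶠ p in 𝓝 (z, w), lempert D p.1 p.2 < c := by
  rw [lempert_lt_iff] at hc
  obtain ⟨lam, hlam, ⟨f, hf, hfD, hf0, hfl⟩, hlc⟩ := hc
  by_cases hzw : z = w
  · -- use small affine discs
    subst hzw
    have hc0 : 0 < c := lt_of_le_of_lt zero_le hlc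
    obtain ⟨δ, hδ, hball⟩ := Metric.isOpen_iff.mp hD z hz
    obtain ⟨r, hr0, hr0', hr1, hr2, hr3⟩ := exists_rescale (s := 0) le_rfl one_pos (c := c) (by simpa)
    -- choose a small parameter `s`
    have hcont : ContinuousAt (fun s : ℝ => ENNReal.ofReal (Real.artanh s)) 0 :=
      ENNReal.continuous_ofReal.continuousAt.comp (continuousAt_artanh ⟨by norm_num, by norm_num⟩)
    have hev : ∀ᶠ s in 𝓝 (0 : ℝ), ENNReal.ofReal (Real.artanh s) < c := by
      apply hcont.eventually_lt_const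
      simpa using hc0
    have hev2 : ∀ᶠ s in 𝓝[>] (0 : ℝ), ENNReal.ofReal (Real.artanh s) < c ∧ 0 < s ∧ s < 1 := by
      refine (hev.filter_mono nhdsWithin_le_nhds).and ?_
      exact Ioo_mem_nhdsGT one_pos
    obtain ⟨s, hs1, hs0, hs2⟩ := hev2.exists
    have hnear : ∀ᶠ p in 𝓝 (z, z), ‖p.1 - z‖ + ‖p.2 - p.1‖ / s < δ := by
      have hcts : ContinuousAt (fun p : Cn n × Cn n => ‖p.1 - z‖ + ‖p.2 - p.1‖ / s) (z, z) := by
        fun_prop
      apply hcts.eventually_lt_const
      simpa using hδ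
    filter_upwards [hnear] with p hp
    rw [lempert_lt_iff]
    refine ⟨(s : ℂ), ?_, ⟨fun ζ => p.1 + (ζ / s) • (p.2 - p.1), ?_, ?_, ?_, ?_⟩, ?_⟩
    · rw [Complex.norm_real, Real.norm_eq_abs, abs_of_pos hs0]; exact hs2
    · fun_prop
    · intro ζ hζ
      apply hball
      rw [mem_ball_zero_iff] at hζ
      rw [mem_ball, dist_eq_norm]
      have : p.1 + (ζ / s) • (p.2 - p.1) - z = (p.1 - z) + (ζ / s) • (p.2 - p.1) := by abel
      rw [this]
      refine lt_of_le_of_lt (norm_add_le _ _) (lt_of_le_of_lt ?_ hp)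
      gcongr
      rw [norm_smul, norm_div, Complex.norm_real, Real.norm_eq_abs, abs_of_pos hs0]
      rw [div_mul_eq_mul_div]
      gcongr
      calc ‖ζ‖ * ‖p.2 - p.1‖ ≤ 1 * ‖p.2 - p.1‖ := by gcongr
        _ = _ := one_mul _
    · simp
    · have : (s : ℂ) ≠ 0 := by exact_mod_cast hs0.ne'
      simp [this]
    · rw [Complex.norm_real, Real.norm_eq_abs, abs_of_pos hs0]; exact hs1
  · have hlam0 : lam ≠ 0 := by
      rintro rfl
      exact hzw (hf0.symm.trans hfl)
    have hln : 0 < ‖lam‖ := norm_pos_iff.mpr hlam0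
    obtain ⟨r, hr1, hr0, hr2, hr3, hr4⟩ := exists_rescale (norm_nonneg lam) hlam hlc
    -- compactness
    have hK : IsCompact (f '' closedBall 0 r) := by
      apply (isCompact_closedBall (0 : ℂ) r).image_of_continuousOn
      apply hf.continuousOn.mono
      exact closedBall_subset_ball hr2
    have hKD : f '' closedBall 0 r ⊆ D := by
      rintro _ ⟨ζ, hζ, rfl⟩
      exact hfD (closedBall_subset_ball hr2 hζ)
    obtain ⟨δ, hδ, hthick⟩ := hK.exists_thickening_subset_open hD hKD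
    set mu : ℂ := lam / r with hmu
    have hrc : (r : ℂ) ≠ 0 := by exact_mod_cast hr0.ne'
    have hmu0 : mu ≠ 0 := div_ne_zero hlam0 hrc
    have hmun : ‖mu‖ = ‖lam‖ / r := by
      rw [hmu, norm_div, Complex.norm_real, Real.norm_eq_abs, abs_of_pos hr0]
    have hmupos : 0 < ‖mu‖ := norm_pos_iff.mpr hmu0
    have hnear : ∀ᶠ p in 𝓝 (z, w), ‖p.1 - z‖ * (1 + 1 / ‖mu‖) + ‖p.2 - w‖ / ‖mu‖ < δ := by
      have hcts : ContinuousAt (fun p : Cn n × Cn n =>
          ‖p.1 - z‖ * (1 + 1 / ‖mu‖) + ‖p.2 - w‖ / ‖mu‖) (z, w) := by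
        fun_prop
      apply hcts.eventually_lt_const
      simpa using hδ
    filter_upwards [hnear] with p hp
    rw [lempert_lt_iff]
    refine ⟨mu, by rw [hmun]; exact hr4, ⟨fun ζ => f (r * ζ) + (1 - ζ / mu) • (p.1 - z) +
      (ζ / mu) • (p.2 - w), ?_, ?_, ?_, ?_⟩, by rw [hmun]; exact hr3⟩
    · have h1 := differentiableOn_rescale hf hr0 hr2.le
      apply (h1.add _).add
      · fun_prop
      · fun_prop
    · intro ζ hζ
      apply hthick
      rw [mem_ball_zero_iff] at hζ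
      rw [mem_thickening_iff]
      refine ⟨f (r * ζ), ⟨r * ζ, ?_, rfl⟩, ?_⟩
      · rw [mem_closedBall_zero_iff, norm_mul, Complex.norm_real, Real.norm_eq_abs, abs_of_pos hr0]
        nlinarith
      · rw [dist_eq_norm]
        have : f (r * ζ) + (1 - ζ / mu) • (p.1 - z) + (ζ / mu) • (p.2 - w) - f (r * ζ) =
            (1 - ζ / mu) • (p.1 - z) + (ζ / mu) • (p.2 - w) := by abel
        rw [this]
        refine lt_of_le_of_lt (norm_add_le _ _) (lt_of_le_of_lt ?_ hp)
        rw [norm_smul, norm_smul]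
        have e1 : ‖ζ / mu‖ ≤ 1 / ‖mu‖ := by
          rw [norm_div]; gcongr
        have e2 : ‖1 - ζ / mu‖ ≤ 1 + 1 / ‖mu‖ := by
          refine (norm_sub_le _ _).trans ?_
          rw [norm_one]; gcongr
        have e3 : ‖1 - ζ / mu‖ * ‖p.1 - z‖ ≤ (1 + 1 / ‖mu‖) * ‖p.1 - z‖ := by gcongr
        have e4 : ‖ζ / mu‖ * ‖p.2 - w‖ ≤ (1 / ‖mu‖) * ‖p.2 - w‖ := by gcongr
        have e5 : (1 / ‖mu‖) * ‖p.2 - w‖ = ‖p.2 - w‖ / ‖mu‖ := by ring
        linarith
    · simp [hf0]
    · have hl : (r : ℂ) * mu = lam := by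
        rw [hmu]; field_simp
      simp [hl, hfl, hmu0]

/-- Limits of analytic discs with values in a compact set, along an ultrafilter. -/
lemma exists_limit_disc {n : ℕ} {ι : Type*} (U : Ultrafilter ι) {K : Set (Cn n)} (hK : IsCompact K)
    (f : ι → ℂ → Cn n) (hf : ∀ i, DifferentiableOn ℂ (f i) (ball 0 1))
    (hfK : ∀ i, MapsTo (f i) (ball 0 1) K) (lam : ι → ℂ) (t : ℝ) (ht : t < 1)
    (hlam : ∀ i, ‖lam i‖ ≤ t) {z w : Cn n}
    (hz : Tendsto (fun i => f i 0) U (𝓝 z)) (hw : Tendsto (fun i => f i (lam i)) U (𝓝 w)) :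
    ∃ g : ℂ → Cn n, ∃ mu : ℂ, DifferentiableOn ℂ g (ball 0 1) ∧ MapsTo g (ball 0 1) K ∧
      ‖mu‖ ≤ t ∧ g 0 = z ∧ g mu = w := by
  -- pointwise limit
  have hpt : ∀ ζ : ℂ, ∃ y : Cn n, ζ ∈ ball (0 : ℂ) 1 → y ∈ K ∧ Tendsto (fun i => f i ζ) U (𝓝 y) := by
    intro ζ
    by_cases hζ : ζ ∈ ball (0 : ℂ) 1
    · obtain ⟨y, hy, hle⟩ := hK.ultrafilter_le_nhds' (U.map (fun i => f i ζ))
        (by
          rw [Ultrafilter.mem_map]
          apply Filter.univ_mem'
          intro i
          exact hfK i hζ)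
      exact ⟨y, fun _ => ⟨hy, hle⟩⟩
    · exact ⟨0, fun h => absurd h hζ⟩
  choose g hg using hpt
  -- limit of the parameters
  obtain ⟨mu, hmu, hmule⟩ := (isCompact_closedBall (0 : ℂ) t).ultrafilter_le_nhds' (U.map lam)
    (by
      rw [Ultrafilter.mem_map]
      apply Filter.univ_mem'
      intro i
      show lam i ∈ closedBall 0 t
      rw [mem_closedBall_zero_iff]
      exact hlam i)
  have hmut : Tendsto lam U (𝓝 mu) := hmule
  rw [mem_closedBall_zero_iff] at hmu
  -- equicontinuity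
  obtain ⟨R, hR⟩ := hK.isBounded.exists_norm_le
  set M : ℝ := 2 * |R| + 1 with hM
  have hMpos : 0 < M := by positivity
  have hLip : ∀ i, ∀ a ∈ ball (0 : ℂ) 1, ∀ b ∈ ball a (1 - ‖a‖),
      dist (f i b) (f i a) ≤ M / (1 - ‖a‖) * dist b a := by
    intro i a ha b hb
    rw [mem_ball_zero_iff] at ha
    have hsub : ball a (1 - ‖a‖) ⊆ ball (0 : ℂ) 1 := by
      apply ball_subset_ball'
      rw [dist_zero_right]; linarith
    apply Complex.dist_le_div_mul_dist_of_mapsTo_ball ((hf i).mono hsub) _ hb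
    intro x hx
    have h1 := hR _ (hfK i (hsub hx))
    have h2 := hR _ (hfK i (mem_ball_zero_iff.mpr ha))
    rw [mem_closedBall, dist_eq_norm]
    refine (norm_sub_le _ _).trans ?_
    have := le_abs_self R
    linarith
  have hgLip : ∀ a ∈ ball (0 : ℂ) 1, ∀ b ∈ ball a (1 - ‖a‖),
      dist (g b) (g a) ≤ M / (1 - ‖a‖) * dist b a := by
    intro a ha b hb
    have ha' := ha
    rw [mem_ball_zero_iff] at ha'
    have hsub : ball a (1 - ‖a‖) ⊆ ball (0 : ℂ) 1 := by
      apply ball_subset_ball'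
      rw [dist_zero_right]; linarith
    have h1 := (hg b (hsub hb)).2
    have h2 := (hg a ha).2
    exact le_of_tendsto (h1.dist h2) (Eventually.of_forall fun i => hLip i a ha b hb)
  have hloc : TendstoLocallyUniformlyOn f g U (ball 0 1) := by
    rw [Metric.tendstoLocallyUniformlyOn_iff]
    intro ε hε a ha
    have ha' := ha
    rw [mem_ball_zero_iff] at ha'
    have hpos : 0 < 1 - ‖a‖ := by linarith
    set L : ℝ := M / (1 - ‖a‖) with hL
    have hLpos : 0 < L := by positivity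
    refine ⟨ball a (min (1 - ‖a‖) (ε / (4 * L))), ?_, ?_⟩
    · apply mem_nhdsWithin_of_mem_nhds
      apply ball_mem_nhds
      positivity
    · have h1 : ∀ᶠ i in (U : Filter ι), dist (f i a) (g a) < ε / 4 :=
        (Metric.tendsto_nhds.mp (hg a ha).2) (ε / 4) (by positivity)
      filter_upwards [h1] with i hi b hb
      rw [mem_ball] at hb
      have hb1 : b ∈ ball a (1 - ‖a‖) := lt_of_lt_of_le hb (min_le_left _ _)
      have hb2 : dist b a < ε / (4 * L) := lt_of_lt_of_le hb (min_le_right _ _)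
      have h2 := hLip i a ha b hb1
      have h3 := hgLip a ha b hb1
      have h4 : L * dist b a < ε / 4 := by
        have : L * dist b a < L * (ε / (4 * L)) := by gcongr
        calc L * dist b a < L * (ε / (4 * L)) := this
          _ = ε / 4 := by field_simp
      calc dist (g b) (f i b) ≤ dist (g b) (g a) + dist (g a) (f i a) + dist (f i a) (f i b) :=
            dist_triangle4 _ _ _ _
        _ < ε := by
            rw [dist_comm (g a) (f i a), dist_comm (f i a) (f i b)]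
            linarith
  refine ⟨g, mu, ?_, fun ζ hζ => (hg ζ hζ).1, hmu, ?_, ?_⟩
  · exact hloc.differentiableOn (Eventually.of_forall hf) isOpen_ball
  · exact tendsto_nhds_unique (hg 0 (by simp)).2 hz
  · have hmub : mu ∈ ball (0 : ℂ) 1 := by
      rw [mem_ball_zero_iff]; linarith
    have hpos : 0 < 1 - ‖mu‖ := by linarith
    have h1 : Tendsto (fun i => dist (f i (lam i)) (f i mu)) U (𝓝 0) := by
      have h2 : ∀ᶠ i in (U : Filter ι), dist (f i (lam i)) (f i mu) ≤
          M / (1 - ‖mu‖) * dist (lam i) mu := by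
        have h3 : ∀ᶠ i in (U : Filter ι), lam i ∈ ball mu (1 - ‖mu‖) :=
          hmut (ball_mem_nhds _ hpos)
        filter_upwards [h3] with i hi
        exact hLip i mu hmub (lam i) hi
      have h4 : Tendsto (fun i => M / (1 - ‖mu‖) * dist (lam i) mu) U (𝓝 0) := by
        have h5 : Tendsto (fun i => dist (lam i) mu) U (𝓝 0) := by
          rw [← dist_self mu]
          exact hmut.dist tendsto_const_nhds
        have := h5.const_mul (M / (1 - ‖mu‖))
        simpa using this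
      exact squeeze_zero' (Eventually.of_forall fun i => dist_nonneg) h2 h4
    have h6 : Tendsto (fun i => dist (f i (lam i)) (f i mu)) U (𝓝 (dist w (g mu))) :=
      hw.dist (hg mu hmub).2
    have h7 : dist w (g mu) = 0 := tendsto_nhds_unique h6 h1
    exact (dist_eq_zero.mp h7).symm

end Pool.Agent.H32
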